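import Pool.Agent.H474_Inj.HolMax

/-!
# Fréchet algebras without nonzero injective modules: holomorphic functions

For every open subset `U` of the complex plane, the Fréchet algebra `O(U)` of holomorphic functions
on `U` has no nonzero injective unital Fréchet modules, and for every point `z` of `U` the Fréchet
algebra (without unit) of all holomorphic functions on `U` vanishing at `z` has no nonzero injective
Fréchet modules.
-/

open TopologicalSpace

universe u

namespace Pool.Agent.Results.MP_5446c4_an.HolomorphicFunctions

open Pool.Agent.H474_Inj

theorem result (U : Opens ℂ) :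
    (FrechetAlgebra (HolAlg U) ∧ ∀ J : FrechetModule.{u} (HolAlg U),
      Unital J → UInjective J → Subsingleton J.carrier) ∧
    ∀ z : U, FrechetAlgebra (HolIdeal z) ∧
      ∀ J : FrechetModule.{u} (HolIdeal z), Injective J → Subsingleton J.carrier :=
  ⟨⟨instHolFrechet U, holAlg_vanish⟩, fun z => ⟨holIdeal_frechet z, holIdeal_vanish z⟩⟩

end Pool.Agent.Results.MP_5446c4_an.HolomorphicFunctions
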