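import Pool.Agent.H474_Inj.Triv

/-!
# Fréchet algebras with zero multiplication

No nonzero Fréchet module over a non-normable Fréchet algebra with zero multiplication is injective.
-/

open Topology

universe u v

namespace Pool.Agent.Results.MP_5446c4_an.ZeroMultiplication

open Pool.Agent.H474_Inj

theorem result (A : Type v) [NonUnitalRing A] [Module ℂ A] [TopologicalSpace A]
    (hA : FrechetAlgebra A) (hmul : ∀ a b : A, a * b = 0)
    (hnorm : ¬ ∃ V ∈ 𝓝 (0 : A), Bornology.IsVonNBounded ℂ V)
    (J : FrechetModule.{u} A) (hJ : Injective J) : Subsingleton J.carrier := by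
  by_contra h
  rw [not_subsingleton_iff_nontrivial] at h
  exact hnorm (zero_mul_normable hmul J hJ h)

end Pool.Agent.Results.MP_5446c4_an.ZeroMultiplication
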